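import Mathlib
import Pool.Agent.U514.SP.Stm

set_option autoImplicit false

/-!
Project SP, package DOTS: every program of inner products is a net of gates.
-/

namespace Pool.Agent.U603.SP

open Finset
open Pool.Agent.U514.SP

variable {F V : Type} [Field F]

/-- gates -/
abbrev Gt (P : Dots F V) : Type := Σ d : P.D, Fin (P.len d) × Bool

/-- the last gate of an item -/
def lg (P : Dots F V) (hP : P.OK) (d : P.D) : Gt P :=
  ⟨d, ⟨P.len d - 1, Nat.sub_lt (hP.len_pos d) Nat.one_pos⟩, true⟩

/-- operands of the net -/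
def conv (P : Dots F V) (hP : P.OK) : Opd F V P.D → Opd F V (Gt P)
  | .var v => .var v
  | .const c => .const c
  | .ref d => .ref (lg P hP d)

/-- a term -/
noncomputable def tm (P : Dots F V) (d : P.D) (e : ℕ) : MvPolynomial V F :=
  (P.fst d e).eval P.val * (P.snd d e).eval P.val

/-- polynomials -/
noncomputable def pl (P : Dots F V) (g : Gt P) : MvPolynomial V F :=
  if g.2.2 then ∑ e ∈ range (g.2.1.1 + 1), tm P g.1 e else tm P g.1 g.2.1.1

/-- first operand -/
def f1 (P : Dots F V) (hP : P.OK) (g : Gt P) : Opd F V (Gt P) :=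
  if g.2.2 then
    (if g.2.1.1 = 0 then .const 0 else
      .ref ⟨g.1, ⟨g.2.1.1 - 1, lt_of_le_of_lt (Nat.sub_le _ _) g.2.1.2⟩, true⟩)
  else conv P hP (P.fst g.1 g.2.1.1)

/-- second operand -/
def f2 (P : Dots F V) (hP : P.OK) (g : Gt P) : Opd F V (Gt P) :=
  if g.2.2 then .ref ⟨g.1, g.2.1, false⟩ else conv P hP (P.snd g.1 g.2.1.1)

/-- a bound for the lengths -/
def bd (P : Dots F V) : ℕ := letI := P.inst; 2 * ∑ d, P.len d

lemma len_le_bd (P : Dots F V) (d : P.D) : 2 * P.len d ≤ bd P := by
  letI := P.inst
  unfold bd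
  have := Finset.single_le_sum (f := fun d => P.len d) (fun _ _ => Nat.zero_le _)
    (Finset.mem_univ d)
  omega

/-- ranks -/
def rk (P : Dots F V) (g : Gt P) : ℕ := P.rank g.1 * bd P + (2 * g.2.1.1 + g.2.2.toNat)

/-- the net -/
noncomputable def net (P : Dots F V) (hP : P.OK) : Net F V where
  G := Gt P
  inst := letI := P.inst; inferInstance
  mul g := !g.2.2
  fst := f1 P hP
  snd := f2 P hP
  rank := rk P
  pol := pl P
  pos g := P.pos g.1 g.2.1.1 g.2.2

lemma pl_lg (P : Dots F V) (hP : P.OK) (d : P.D) : pl P (lg P hP d) = P.val d := by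
  unfold pl lg
  simp only [if_true]
  rw [Nat.sub_add_cancel (hP.len_pos d), hP.val_eq d]
  rfl

lemma conv_eval (P : Dots F V) (hP : P.OK) (o : Opd F V P.D) :
    (conv P hP o).eval (pl P) = o.eval P.val := by
  cases o with
  | var v => rfl
  | const c => rfl
  | ref d => exact pl_lg P hP d

lemma conv_rank (P : Dots F V) (hP : P.OK) (o : Opd F V P.D) (g : Gt P) (h : Gt P)
    (ho : ∀ d', o = .ref d' → P.rank d' < P.rank g.1) (hh : conv P hP o = .ref h) :
    rk P h < rk P g := by
  cases o with
  | var v => simp [conv] at hh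
  | const c => simp [conv] at hh
  | ref d =>
    have h1 := ho d rfl
    have h2 : h = lg P hP d := by
      simp only [conv, Opd.ref.injEq] at hh
      exact hh.symm
    subst h2
    have h3 := hP.len_pos d
    have h4 := len_le_bd P d
    have h5 : (P.rank d + 1) * bd P ≤ P.rank g.1 * bd P := Nat.mul_le_mul_right _ h1
    unfold rk lg
    simp only [Bool.toNat_true]
    rw [add_mul, one_mul] at h5
    omega

theorem net_ok (P : Dots F V) (hP : P.OK) : (net P hP).OK where
  fst_rank := by
    rintro ⟨d, e, b⟩ h hh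
    change f1 P hP ⟨d, e, b⟩ = _ at hh
    change rk P h < rk P ⟨d, e, b⟩
    cases b with
    | true =>
      simp only [f1, if_true] at hh
      split_ifs at hh with he
      injection hh with hh
      subst hh
      unfold rk
      simp only [Bool.toNat_true]
      omega
    | false =>
      simp only [f1, Bool.false_eq_true, if_false] at hh
      exact conv_rank P hP _ _ h (fun d' hd' => hP.fst_rank d e d' e.2 hd') hh
  snd_rank := by
    rintro ⟨d, e, b⟩ h hh
    change f2 P hP ⟨d, e, b⟩ = _ at hh
    change rk P h < rk P ⟨d, e, b⟩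
    cases b with
    | true =>
      simp only [f2, if_true] at hh
      injection hh with hh
      subst hh
      unfold rk
      simp
    | false =>
      simp only [f2, Bool.false_eq_true, if_false] at hh
      exact conv_rank P hP _ _ h (fun d' hd' => hP.snd_rank d e d' e.2 hd') hh
  mul_eq := by
    rintro ⟨d, e, b⟩ hb
    cases b with
    | true => simp [net] at hb
    | false =>
      change pl P ⟨d, e, false⟩ = (f1 P hP ⟨d, e, false⟩).eval (pl P) *
        (f2 P hP ⟨d, e, false⟩).eval (pl P)
      simp only [f1, f2, Bool.false_eq_true, if_false]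
      rw [conv_eval, conv_eval]
      simp [pl, tm]
  add_eq := by
    rintro ⟨d, e, b⟩ hb
    cases b with
    | false => simp [net] at hb
    | true =>
      change pl P ⟨d, e, true⟩ = (f1 P hP ⟨d, e, true⟩).eval (pl P) +
        (f2 P hP ⟨d, e, true⟩).eval (pl P)
      have h2 : (f2 P hP ⟨d, e, true⟩).eval (pl P) = tm P d e.1 := by
        simp [f2, Opd.eval, pl]
      rw [h2]
      rcases Nat.eq_zero_or_pos e.1 with he | he
      · have h1 : (f1 P hP ⟨d, e, true⟩).eval (pl P) = 0 := by
          simp [f1, he, Opd.eval]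
        rw [h1, zero_add]
        simp [pl, he]
      · have h1 : (f1 P hP ⟨d, e, true⟩).eval (pl P) = ∑ e' ∈ range e.1, tm P d e' := by
          have he' : e.1 ≠ 0 := by omega
          simp only [f1, if_true, if_neg he', Opd.eval]
          simp only [pl, if_true]
          rw [Nat.sub_add_cancel he]
        rw [h1]
        simp only [pl, if_true]
        rw [Finset.sum_range_succ]
  inj := by
    rintro ⟨d, e, b⟩ ⟨d', e', b'⟩ h
    change P.pos d e.1 b = P.pos d' e'.1 b' at h
    obtain ⟨h1, h2, h3⟩ := hP.inj d e.1 b d' e'.1 b' e.2 e'.2 h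
    subst h1
    subst h3
    have : e = e' := Fin.ext h2
    subst this
    rfl

lemma conv_len (P : Dots F V) (hP : P.OK) (o : Opd F V P.D) (p : ℤ × ℤ) :
    (conv P hP o).len (net P hP).pos p = o.len P.last p := by
  cases o with
  | var v => rfl
  | const c => rfl
  | ref d => rfl

theorem net_cost (P : Dots F V) (hP : P.OK) : (net P hP).cost = P.cost := by
  letI := P.inst
  unfold Net.cost Dots.cost
  change (∑ g : Gt P, _) = _
  rw [Fintype.sum_sigma]
  apply Finset.sum_congr rfl
  intro d _
  unfold Dots.itemCost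
  rw [← Fin.sum_univ_eq_sum_range (fun e => 2 + dst (P.pos d e false) (P.pos d e true) +
    (P.fst d e).len P.last (P.pos d e false) + (P.snd d e).len P.last (P.pos d e false) +
    if e = 0 then 0 else dst (P.pos d (e - 1) true) (P.pos d e true)),
    Fintype.sum_prod_type]
  apply Finset.sum_congr rfl
  intro e _
  rw [Fintype.sum_bool]
  have h1 : ((net P hP).fst ⟨d, e, true⟩).len (net P hP).pos ((net P hP).pos ⟨d, e, true⟩) =
      if e.1 = 0 then 0 else dst (P.pos d (e.1 - 1) true) (P.pos d e.1 true) := by
    change (f1 P hP ⟨d, e, true⟩).len (net P hP).pos (P.pos d e.1 true) = _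
    simp only [f1, if_true]
    split_ifs with he
    · rfl
    · rfl
  have h2 : ((net P hP).snd ⟨d, e, true⟩).len (net P hP).pos ((net P hP).pos ⟨d, e, true⟩) =
      dst (P.pos d e.1 false) (P.pos d e.1 true) := by
    change (f2 P hP ⟨d, e, true⟩).len (net P hP).pos (P.pos d e.1 true) = _
    simp only [f2, if_true]
    rfl
  have h3 : ((net P hP).fst ⟨d, e, false⟩).len (net P hP).pos ((net P hP).pos ⟨d, e, false⟩) =
      (P.fst d e.1).len P.last (P.pos d e.1 false) := by
    change (f1 P hP ⟨d, e, false⟩).len (net P hP).pos (P.pos d e.1 false) = _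
    simp only [f1, Bool.false_eq_true, if_false]
    exact conv_len P hP _ _
  have h4 : ((net P hP).snd ⟨d, e, false⟩).len (net P hP).pos ((net P hP).pos ⟨d, e, false⟩) =
      (P.snd d e.1).len P.last (P.pos d e.1 false) := by
    change (f2 P hP ⟨d, e, false⟩).len (net P hP).pos (P.pos d e.1 false) = _
    simp only [f2, Bool.false_eq_true, if_false]
    exact conv_len P hP _ _
  rw [h1, h2, h3, h4]
  ring

theorem t_DOTS : S_DOTS := by
  intro F V _ P hP
  refine ⟨net P hP, net_ok P hP, fun d => ⟨lg P hP d, pl_lg P hP d⟩, (net_cost P hP).le⟩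

end Pool.Agent.U603.SP
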